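import Pool.Agent.K1H30.ES.Stm3
import Pool.Agent.K1H20.ES.Ineq

set_option autoImplicit false
set_option linter.style.haveILetI false

/-!
# Piece INEQ2 of the project ES (adapted from Pool.Agent.K1H20.ES.Ineq)
-/

namespace Pool.Agent.K1H33.ES

open Pool.Agent.K1H30.ES Pool.Agent.K1H20.ES MvPolynomial Module

theorem t_INEQ2 :
    S_VAN1 → S_VAN2 → S_RED → S_DOM → S_CNT → S_DIV → S_VANC → S_CND → S_INEQ2 := by
  intro hV1 hV2 hR hD hC' hDiv hVC hCnd K _ _ t A B n E s w hA hB hE hw hS k p hp a e F μ haE hF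
    hF0 hFib hFJ hμ
  obtain ⟨hp1, hp2, hp3, hp4⟩ := hp
  obtain ⟨G, hG, hGi⟩ := hS
  obtain ⟨fV, cV, -⟩ := hC' K A B E 0 hA hB
  obtain ⟨fV', -, cV'⟩ := hC' K A B (E - a) (k - e) hA hB
  obtain ⟨W, hW1, hW2, hW3⟩ := hCnd K A B (E - a) k (k - e) (ng p)
  obtain ⟨PP, hPP⟩ : ∃ PP : P3 K, PP = ∏ i, (X 0 - C (p i).1) := ⟨_, rfl⟩
  have hPPw : ∀ q, eval (w q) PP ≠ 0 := by
    intro q
    rw [hPP, map_prod, Finset.prod_ne_zero_iff]
    intro i _
    rw [map_sub, eval_X, eval_C, sub_ne_zero]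
    exact (hp4 i q).symm
  haveI := fV
  haveI := fV'
  haveI : FiniteDimensional K W := Submodule.finiteDimensional_of_le hW1
  let σ : P3 K →ₗ[K] ((Σ q : Fin n, JX (s - μ q)) → K) :=
    LinearMap.pi fun x => fnL t (w x.1) x.2.1 x.2.2
  let ρ : P3 K →ₗ[K] (Fin n × JX s → K) := LinearMap.pi fun x => fnL t (w x.1) x.2.1 x.2.2
  let U : Submodule K (P3 K × P3 K) :=
    { carrier := {u | u.1 ∈ W ∧ u.2 ∈ Cls K A B E 0 ∧
        ∃ Q, F * u.1 = PP * u.2 + hC t * Q}
      zero_mem' := ⟨Submodule.zero_mem _, Submodule.zero_mem _, 0, by simp⟩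
      add_mem' := by
        rintro u v ⟨h1, h2, Q, hQ⟩ ⟨h1', h2', Q', hQ'⟩
        refine ⟨Submodule.add_mem _ h1 h1', Submodule.add_mem _ h2 h2', Q + Q', ?_⟩
        rw [Prod.fst_add, Prod.snd_add, mul_add, hQ, hQ']
        ring
      smul_mem' := by
        rintro c u ⟨h1, h2, Q, hQ⟩
        refine ⟨Submodule.smul_mem _ c h1, Submodule.smul_mem _ c h2, c • Q, ?_⟩
        rw [Prod.smul_fst, Prod.smul_snd, mul_smul_comm, hQ, smul_add, mul_smul_comm,
          mul_smul_comm] }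
  have hσ : ∀ g : P3 K, σ g = 0 → ∀ q, Van t (w q) (s - μ q) g := by
    intro g hg q
    rw [Van_iff]
    intro x
    exact congrFun hg ⟨q, x⟩
  have hρ : ∀ g : P3 K, ρ g = 0 ↔ ∀ q, Van t (w q) s g := by
    intro g
    constructor
    · intro hg q
      rw [Van_iff]
      intro x
      exact congrFun hg (q, x)
    · intro h
      funext x
      exact (Van_iff t (w x.1) s g).1 (h x.1) x.2
  have key := lin (Cls K A B E 0) W ρ σ U
    (fun u hu => ⟨hu.1, hu.2.1⟩)
    (fun g hg => by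
      obtain ⟨G', hG', Q, hQ⟩ := hR K t A B a (E - a) (e + k) (k - e) F g hF (hW1 hg)
      rw [show a + (E - a) = E by omega, show e + k + (k - e) = 0 + 2 * (k : ℤ) by ring] at hG'
      have hcurve : ∀ (x y z : K), y ^ 2 = (1 + x) * (x ^ 2 - t) →
          eval ![x, y, z] (hC t : P3 K) = 0 := by
        intro x y z hxy
        unfold hC
        simp only [map_sub, map_pow, map_mul, map_add, eval_X, eval_C, map_one]
        simp only [Matrix.cons_val_zero, Matrix.cons_val_one]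
        rw [hxy]
        ring
      have hG2 : G' = F * g - hC t * Q := by rw [hQ]; ring
      have f1 : Fib p G' := by
        intro i z
        rw [hG2, map_sub, map_mul, map_mul, hFib i z, hcurve _ _ z (hp1 i)]
        ring
      have f2 : Fib (ng p) G' := by
        intro i z
        have h1 := hW2 g hg i z
        have h2 : eval ![(ng p i).1, (ng p i).2, z] (hC t : P3 K) = 0 := by
          refine hcurve _ _ z ?_
          change (-(p i).2) ^ 2 = _
          rw [neg_sq]
          exact hp1 i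
        rw [hG2, map_sub, map_mul, map_mul, h1, h2]
        ring
      obtain ⟨H, hH, hGH⟩ := hDiv K A B E k 0 p hp2 hp3 G' hG' f1 f2
      exact ⟨H, hg, hH, Q, by rw [hQ, hGH, ← hPP]⟩)
    (fun u hu h0 => by
      obtain ⟨h1, h2, Q, hQ⟩ := hu
      rw [h0, mul_zero, zero_add] at hQ
      exact hD K t A B a (E - a) (e + k) (k - e) F u.1 Q hF (hW1 h1) hF0 hQ)
    (fun u hu h0 => by
      obtain ⟨h1, h2, Q, hQ⟩ := hu
      rw [hρ]
      intro q
      have v1 : Van t (w q) (μ q + (s - μ q)) (F * u.1) :=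
        hV2 K t (w q) (μ q) (s - μ q) F u.1 (hV1 K t (w q) (hw q) (μ q) F (hFJ q)) (hσ _ h0 q)
      rw [show μ q + (s - μ q) = s by have := hμ q; omega] at v1
      have v2 : Van t (w q) s (hC t * Q) := by
        refine hV1 K t (w q) (hw q) s _ ?_
        exact Ideal.mem_sup_right (Ideal.mul_mem_right Q _ (Ideal.subset_span rfl))
      refine hVC K t (w q) s PP u.2 (hPPw q) ?_
      rw [Van_iff] at v1 v2 ⊢
      intro x
      have hH : PP * u.2 = F * u.1 - hC t * Q := by rw [hQ]; ring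
      rw [hH, map_sub, v1 x, v2 x, sub_zero])
    (n * (s + 1).choose 2) G hG
    (by
      rw [Fintype.linearIndependent_iff]
      intro c hc
      have : c = 0 := by
        apply hGi
        rw [← hρ, map_sum]
        simp only [map_smul]
        exact hc
      intro i
      rw [this]
      rfl)
  -- the numbers
  have d1 : 2 * (n * (s + 1).choose 2) = n * (s * (s + 1)) := by
    have h2 := Nat.add_one_mul_choose_eq s 1
    simp only [Nat.choose_one_right, Nat.reduceAdd] at h2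
    nlinarith [h2]
  have d2 : (2 : ℤ) * (finrank K ((Σ q : Fin n, JX (s - μ q)) → K) : ℤ)
      = ∑ q, ((s : ℤ) - μ q) * ((s : ℤ) - μ q + 1) := by
    rw [Module.finrank_fintype_fun_eq_card, Fintype.card_sigma]
    push_cast
    rw [Finset.mul_sum]
    refine Finset.sum_congr rfl fun q _ => ?_
    have h := card_JX (s - μ q)
    have h' : (2 : ℤ) * (Fintype.card (JX (s - μ q)) : ℤ)
        = ((s - μ q : ℕ) : ℤ) * (((s - μ q : ℕ) : ℤ) + 1) := by exact_mod_cast h
    have hc : ((s - μ q : ℕ) : ℤ) = (s : ℤ) - μ q := by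
      have := hμ q
      push_cast [this]
      ring
    rw [hc] at h'
    exact h'
  have d3 := cV hE
  have hEa : ((E - a : ℕ) : ℤ) = (E : ℤ) - a := by push_cast [haE]; ring
  rw [hEa] at cV'
  have d1' : (2 : ℤ) * ((n * (s + 1).choose 2 : ℕ) : ℤ) = (n : ℤ) * (s * (s + 1)) := by
    exact_mod_cast d1
  have d3' : (2 : ℤ) * (finrank K (Cls K A B E 0) : ℤ) = ((E : ℤ) + 1) * E * (A + B) := by
    exact_mod_cast d3
  have key' : ((n * (s + 1).choose 2 : ℕ) : ℤ) + (finrank K W : ℤ)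
      ≤ (finrank K (Cls K A B E 0) : ℤ) + (finrank K ((Σ q : Fin n, JX (s - μ q)) → K) : ℤ) := by
    exact_mod_cast key
  have hW3' : (finrank K (Cls K A B (E - a) (k - e)) : ℤ) ≤
      (finrank K W : ℤ) + (k : ℤ) * (((E - a : ℕ) : ℤ) + 1) := by exact_mod_cast hW3
  rw [hEa] at hW3'
  rw [← d1', ← d2, ← d3']
  have e1 : ((E : ℤ) - a + 1) * (((E : ℤ) - a) * (A + B) - 2 * e)
      = ((E : ℤ) - a + 1) * (((E : ℤ) - a) * (A + B) + 2 * (k - e)) -
        2 * ((k : ℤ) * ((E : ℤ) - a + 1)) := by ring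
  rw [e1]
  linarith

end Pool.Agent.K1H33.ES
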