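import Pool.Agent.K1H30.ES.Stm3

set_option autoImplicit false

/-!
# Piece LIM2 of the project ES: the limit for all classes (adapted from Pool.Agent.K1H78.ES.Lim)
-/

namespace Pool.Agent.K1H33.ES

open MvPolynomial Pool.Agent.K1H30.ES

theorem t_LIM2 : S_INEQ2 → S_LIM2 := by
  intro hI K _ _ t A B n w hA hB hn hw hAsy k p hp a e F μ hF hF0 hFib hμ
  set D : ℝ := (A : ℝ) + B with hD
  have hA' : (1 : ℝ) ≤ A := by exact_mod_cast hA
  have hB' : (1 : ℝ) ≤ B := by exact_mod_cast hB
  have hD0 : 0 < D := by rw [hD]; linarith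
  set c : ℝ := √(n : ℝ) / √D with hc
  have hc0 : 0 ≤ c := by positivity
  set W : ℝ := (a : ℝ) * D + e with hW
  set S : ℝ := ∑ q, (μ q : ℝ) with hS
  have hS2 : ∀ x : ℝ, ∑ q, (x - μ q) * (x - μ q + 1) =
      n * (x ^ 2 + x) - 2 * x * S + ∑ q, ((μ q : ℝ) ^ 2 - μ q) := by
    intro x
    have : ∀ q, (x - μ q) * (x - μ q + 1) = (x ^ 2 + x) - 2 * x * (μ q : ℝ) +
        ((μ q : ℝ) ^ 2 - μ q) := fun q => by ring
    simp only [this]
    rw [Finset.sum_add_distrib, Finset.sum_sub_distrib, ← Finset.mul_sum, Finset.sum_const,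
      Finset.card_univ, Fintype.card_fin, nsmul_eq_mul]
  set R : ℝ := ∑ q, ((μ q : ℝ) ^ 2 - μ q) - a ^ 2 * D + a * D - 2 * e * a + 2 * e with hR
  have main : ∀ η : ℝ, 0 < η → S ≤ (c + η) * W := by
    intro η hη
    obtain ⟨s0, hs0⟩ := hAsy η hη
    have key : ∀ s : ℕ, s0 ≤ s → (∀ q, μ q ≤ s) →
        (s : ℝ) * (S - (c + η) * W) ≤ (a + 2) * |W| + R / 2 := by
      intro s hs hμs
      set E : ℕ := ⌈(c + η) * s⌉₊ + a + 1 with hE
      have hpos : 0 ≤ (c + η) * s := by positivity
      have hE1 : (c + η) * s ≤ E := by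
        have := Nat.le_ceil ((c + η) * (s : ℝ))
        rw [hE]
        push_cast
        have ha : (0 : ℝ) ≤ a := by positivity
        linarith
      have hE2 : (E : ℝ) ≤ (c + η) * s + a + 2 := by
        have := (Nat.ceil_lt_add_one hpos).le
        rw [hE]
        push_cast
        linarith
      have hsep := hs0 s hs E (by rw [← hD, ← hc]; exact hE1)
      have h1 := hI K t A B n E s w hA hB (by omega) hw hsep k p hp a e F μ (by omega) hF hF0
        hFib hμ hμs
      have h2 : (((n : ℤ) * (s * (s + 1)) + ((E : ℤ) - a + 1) * (((E : ℤ) - a) * (A + B) - 2 * e) :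
          ℤ) : ℝ) ≤ ((((E : ℤ) + 1) * E * (A + B) +
            ∑ q, ((s : ℤ) - μ q) * ((s : ℤ) - μ q + 1) : ℤ) : ℝ) := by exact_mod_cast h1
      push_cast at h2
      rw [hS2 s, ← hD] at h2
      have h3 : 2 * (s : ℝ) * S ≤ 2 * E * W + R := by
        rw [hR, hW]
        nlinarith [h2]
      have h4 : (E : ℝ) * W ≤ (c + η) * s * W + (a + 2) * |W| := by
        have ha : (0 : ℝ) ≤ a := by positivity
        rcases le_total 0 W with hW0 | hW0
        · rw [abs_of_nonneg hW0]
          have := mul_le_mul_of_nonneg_right hE2 hW0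
          linarith
        · have h5 := mul_le_mul_of_nonpos_right hE1 hW0
          have h6 : 0 ≤ (a + 2 : ℝ) * |W| := by positivity
          linarith
      nlinarith [h3, h4]
    by_contra hlt
    have hδ : 0 < S - (c + η) * W := by linarith [not_le.mp hlt]
    obtain ⟨N, hN⟩ := exists_nat_gt (((a + 2) * |W| + R / 2) / (S - (c + η) * W))
    have h5 := key (N + s0 + ∑ q, μ q) (by omega) (fun q => by
      have := Finset.single_le_sum (f := μ) (fun i _ => Nat.zero_le _) (Finset.mem_univ q)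
      omega)
    have h6 : (N : ℝ) ≤ ((N + s0 + ∑ q, μ q : ℕ) : ℝ) := by exact_mod_cast (by omega)
    have h7 : (a + 2) * |W| + R / 2 < N * (S - (c + η) * W) := by
      rw [div_lt_iff₀ hδ] at hN
      exact hN
    have h8 := mul_le_mul_of_nonneg_right h6 hδ.le
    linarith
  have hfin : S ≤ c * W := by
    apply le_of_forall_pos_le_add
    intro ε hε
    have hW1 : 0 ≤ |W| := abs_nonneg W
    have h1 := main (ε / (|W| + 1)) (by positivity)
    have h2 : ε / (|W| + 1) * W ≤ ε := by
      rw [div_mul_eq_mul_div, div_le_iff₀ (by positivity)]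
      have h3 : ε * W ≤ ε * |W| := mul_le_mul_of_nonneg_left (le_abs_self W) hε.le
      nlinarith
    nlinarith
  have hsq : 0 < √D := Real.sqrt_pos.mpr hD0
  calc √D * S ≤ √D * (c * W) := mul_le_mul_of_nonneg_left hfin hsq.le
    _ = √(n : ℝ) * W := by
        rw [hc]
        field_simp
    _ = _ := by rw [hW]

end Pool.Agent.K1H33.ES
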